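import Pool.Agent.Work.MP_ea6116_an.Own.Proof

/-!
# Propagation of smallness for gradients from sets of codimension below two

Question Q1 of the problem file is answered in the positive: for all `n ≥ 2`, all bounded domains,
all symmetric uniformly elliptic matrices with Lipschitz entries and all `δ, m, ρ > 0` the gradient
three-sets inequality holds, with constants which depend on the matrix only through `Λ₁` and `Λ₂`.
-/

set_option autoImplicit false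

open MeasureTheory Metric Set Filter Topology
open scoped ENNReal NNReal ContDiff

namespace Pool.Agent.Results.MP_ea6116_an.GradientThreeSets

/-! ## Definitions -/

/-- `ℝⁿ` with the Euclidean norm. -/
abbrev Rn (n : ℕ) := EuclideanSpace ℝ (Fin n)

/-- `Ω` is a bounded domain of `ℝⁿ`: open, connected (and so non-empty) and bounded. -/
structure IsBoundedDomain {n : ℕ} (Ω : Set (Rn n)) : Prop where
  isOpen : IsOpen Ω
  isConnected : IsConnected Ω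
  isBounded : Bornology.IsBounded Ω

/-- `A(x) = [a_{ij}(x)]` is a symmetric matrix on `Ω`, uniformly elliptic,
`Λ₁⁻¹ |ζ|² ≤ ⟨A(x) ζ, ζ⟩ ≤ Λ₁ |ζ|²`, with Lipschitz entries, `|a_{ij}(x) - a_{ij}(y)| ≤ Λ₂ |x - y|`.
-/
structure IsCoefficient {n : ℕ} (Λ₁ Λ₂ : ℝ) (Ω : Set (Rn n))
    (A : Rn n → Matrix (Fin n) (Fin n) ℝ) : Prop where
  symm : ∀ x ∈ Ω, ∀ i j, A x i j = A x j i
  elliptic : ∀ x ∈ Ω, ∀ ζ : Rn n,
    Λ₁⁻¹ * ‖ζ‖ ^ 2 ≤ ∑ i, ∑ j, A x i j * ζ j * ζ i ∧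
      ∑ i, ∑ j, A x i j * ζ j * ζ i ≤ Λ₁ * ‖ζ‖ ^ 2
  lipschitz : ∀ x ∈ Ω, ∀ y ∈ Ω, ∀ i j, |A x i j - A y i j| ≤ Λ₂ * dist x y

/-- `u` is a solution of `div (A ∇u) = 0` in `Ω`: it is continuously differentiable in `Ω` and
`∫_Ω ⟨A ∇u, ∇φ⟩ = 0` for all test functions `φ ∈ C_c^∞(Ω)`. (The coefficients are Lipschitz, so
every weak solution in `W^{1,2}_loc(Ω)` is of this kind after a change on a null set.) -/
structure IsSolution {n : ℕ} (A : Rn n → Matrix (Fin n) (Fin n) ℝ) (Ω : Set (Rn n))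
    (u : Rn n → ℝ) : Prop where
  contDiffOn : ContDiffOn ℝ 1 u Ω
  weak : ∀ φ : Rn n → ℝ, ContDiff ℝ ∞ φ → HasCompactSupport φ → tsupport φ ⊆ Ω →
    ∫ x in Ω, ∑ i, ∑ j, A x i j * gradient u x j * gradient φ x i = 0

/-- The `d`-dimensional Hausdorff content
`C^d_H(E) = inf {∑_j r_j^d : E ⊂ ⋃_j B(x_j, r_j)}`, an element of `[0, ∞]`. -/
noncomputable def hausdorffContent {n : ℕ} (d : ℝ) (E : Set (Rn n)) : ℝ≥0∞ :=
  ⨅ (x : ℕ → Rn n) (r : ℕ → ℝ≥0) (_ : E ⊆ ⋃ j, ball (x j) (r j)), ∑' j, (r j : ℝ≥0∞) ^ d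

/-- `sup_S |∇u|`, an element of `[0, ∞]`. -/
noncomputable def supGrad {n : ℕ} (u : Rn n → ℝ) (S : Set (Rn n)) : ℝ≥0∞ :=
  ⨆ x ∈ S, ‖gradient u x‖ₑ

/-! ## The theorem -/

/-- **Propagation of smallness for gradients from sets of codimension below two** (positive answer
to Q1). Let `n ≥ 2`, let `Ω ⊂ ℝⁿ` be a bounded domain and `ρ > 0`. There is a compact set
`V ⊂ Ω` (depending only on `Ω` and `ρ`) such that for all `Λ₁, Λ₂, δ, m` with `Λ₁, δ, m > 0` there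
are `C > 0` and `γ ∈ (0,1)` (depending only on `Ω, ρ, Λ₁, Λ₂, δ, m`) with the following property.
If `A` is a symmetric matrix on `Ω` with ellipticity constant `Λ₁` and Lipschitz constant `Λ₂`, if
`E, K ⊂ Ω` are any sets with `C^{n-2+δ}_H(E) ≥ m`, `dist(E, ∂Ω) ≥ ρ` and `dist(K, ∂Ω) ≥ ρ`, then
every solution `u` of `div (A ∇u) = 0` in `Ω` satisfies
`sup_K |∇u| ≤ C (sup_E |∇u|)^γ (sup_V |∇u|)^(1-γ)`, and in particular
`sup_K |∇u| ≤ C (sup_E |∇u|)^γ (sup_Ω |∇u|)^(1-γ)`.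
The suprema are taken in `[0, ∞]`; here `0 ^ γ = 0`, `∞ ^ (1-γ) = ∞` and `0 * ∞ = 0`. -/
theorem result (n : ℕ) (hn : 2 ≤ n) (Ω : Set (Rn n)) (hΩ : IsBoundedDomain Ω)
    (ρ : ℝ) (hρ : 0 < ρ) :
    ∃ V : Set (Rn n), IsCompact V ∧ V ⊆ Ω ∧
      ∀ Λ₁ Λ₂ δ m : ℝ, 0 < Λ₁ → 0 < δ → 0 < m →
        ∃ C γ : ℝ, 0 < C ∧ 0 < γ ∧ γ < 1 ∧
          ∀ A : Rn n → Matrix (Fin n) (Fin n) ℝ, IsCoefficient Λ₁ Λ₂ Ω A →
          ∀ E K : Set (Rn n), E ⊆ Ω → K ⊆ Ω →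
            ENNReal.ofReal m ≤ hausdorffContent ((n : ℝ) - 2 + δ) E →
            (∀ x ∈ E, ∀ y ∈ frontier Ω, ρ ≤ dist x y) →
            (∀ x ∈ K, ∀ y ∈ frontier Ω, ρ ≤ dist x y) →
          ∀ u : Rn n → ℝ, IsSolution A Ω u →
            supGrad u K ≤ ENNReal.ofReal C * supGrad u E ^ γ * supGrad u V ^ (1 - γ) ∧
            supGrad u K ≤ ENNReal.ofReal C * supGrad u E ^ γ * supGrad u Ω ^ (1 - γ) := by
  obtain ⟨V, hVc, hVO, hV⟩ :=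
    EAOwn.main n hn Ω hΩ.isOpen hΩ.isConnected hΩ.isBounded ρ hρ
  refine ⟨V, hVc, hVO, fun Λ₁ Λ₂ δ m hΛ hδ hm => ?_⟩
  obtain ⟨C, γ, hC, hγ, hγ1, hmain⟩ := hV Λ₁ Λ₂ δ m hΛ hδ hm
  exact ⟨C, γ, hC, hγ, hγ1, fun A hA E K hE hK hm' hEρ hKρ u hu =>
    hmain A hA.symm hA.elliptic hA.lipschitz E K hE hK hm' hEρ hKρ u hu.contDiffOn hu.weak⟩

end Pool.Agent.Results.MP_ea6116_an.GradientThreeSets
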